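import Pool.Agent.Lib.MP_28303a_al.NT.Lab

/-! # Choice of new locations (row LAM) -/

set_option autoImplicit false
set_option linter.unusedSectionVars false
set_option linter.unusedVariables false

namespace Pool.Agent.NegK.NT

universe u v w

open CategoryTheory Limits

namespace H25

/-- Upper bounds of finite sets. -/
theorem exists_ub {B : Type u} [PartialOrder B] [Nonempty B] (hd : ∀ x y : B, ∃ z, x ≤ z ∧ y ≤ z)
    {s : Set B} (hs : s.Finite) : ∃ z, ∀ x ∈ s, x ≤ z := by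
  induction s, hs using Set.Finite.induction_on with
  | empty => exact ⟨Classical.arbitrary B, fun x hx => absurd hx (Set.notMem_empty x)⟩
  | @insert a s _ _ ih =>
    obtain ⟨z, hz⟩ := ih
    obtain ⟨y, hy, hzy⟩ := hd a z
    refine ⟨y, fun x hx => ?_⟩
    rcases Set.mem_insert_iff.1 hx with rfl | hx
    · exact hy
    · exact (hz x hx).trans hzy

/-- The combinatorial statement. -/
theorem lam_aux {Γ : Type u} [Group Γ] {B : Type u} [PartialOrder B] [Nonempty B] [MulAction Γ B]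
    (mono : ∀ (g : Γ) (x y : B), x ≤ y → g • x ≤ g • y) (dir : ∀ x y : B, ∃ z, x ≤ z ∧ y ≤ z)
    {β : Type u} (gr : β → ℕ) (R : Set (β × Γ × β)) (hR : R.Finite)
    (hgr : ∀ r ∈ R, gr r.1 < gr r.2.2 ∨ (r.2.1 = 1 ∧ r.1 = r.2.2))
    (C : Set (B × Γ × β)) (hC : C.Finite) (N : ℕ) :
    ∃ l : β → B, (∀ r ∈ R, gr r.2.2 < N → l r.1 ≤ r.2.1 • l r.2.2) ∧
      ∀ c ∈ C, gr c.2.2 < N → c.1 ≤ c.2.1 • l c.2.2 := by
  classical
  induction N with
  | zero =>
    exact ⟨fun _ => Classical.arbitrary B, fun r _ h => absurd h (Nat.not_lt_zero _),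
      fun c _ h => absurd h (Nat.not_lt_zero _)⟩
  | succ N ih =>
    obtain ⟨l, h1, h2⟩ := ih
    have hfin : ((fun r : β × Γ × β => r.2.1⁻¹ • l r.1) '' R ∪
        (fun c : B × Γ × β => c.2.1⁻¹ • c.1) '' C).Finite :=
      (hR.image _).union (hC.image _)
    obtain ⟨z, hz⟩ := exists_ub dir hfin
    have key : ∀ (g : Γ) (x : B), g⁻¹ • x ≤ z → x ≤ g • z := by
      intro g x hx
      have := mono g _ _ hx
      rwa [smul_inv_smul] at this
    refine ⟨fun b => if gr b = N then z else l b, ?_, ?_⟩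
    · intro r hr hlt
      show (if gr r.1 = N then z else l r.1) ≤ r.2.1 • (if gr r.2.2 = N then z else l r.2.2)
      rcases hgr r hr with hg | ⟨hg, he⟩
      · have hne : gr r.1 ≠ N := by omega
        rw [if_neg hne]
        by_cases hN : gr r.2.2 = N
        · rw [if_pos hN]
          exact key _ _ (hz _ (Or.inl ⟨r, hr, rfl⟩))
        · rw [if_neg hN]
          exact h1 r hr (by omega)
      · rw [hg, he, one_smul]
    · intro c hc hlt
      show c.1 ≤ c.2.1 • (if gr c.2.2 = N then z else l c.2.2)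
      by_cases hN : gr c.2.2 = N
      · rw [if_pos hN]
        exact key _ _ (hz _ (Or.inr ⟨c, hc, rfl⟩))
      · rw [if_neg hN]
        exact h2 c hc (by omega)

theorem lam_aux' {Γ : Type u} [Group Γ] {B : Type u} [PartialOrder B] [Nonempty B] [MulAction Γ B]
    (mono : ∀ (g : Γ) (x y : B), x ≤ y → g • x ≤ g • y) (dir : ∀ x y : B, ∃ z, x ≤ z ∧ y ≤ z)
    {β : Type u} (gr : β → ℕ) (R : Set (β × Γ × β)) (hR : R.Finite)
    (hgr : ∀ r ∈ R, gr r.1 < gr r.2.2 ∨ (r.2.1 = 1 ∧ r.1 = r.2.2))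
    (C : Set (B × Γ × β)) (hC : C.Finite) :
    ∃ l : β → B, (∀ r ∈ R, l r.1 ≤ r.2.1 • l r.2.2) ∧ ∀ c ∈ C, c.1 ≤ c.2.1 • l c.2.2 := by
  obtain ⟨N, hN⟩ := exists_ub (B := ℕ) (fun x y => ⟨max x y, le_max_left _ _, le_max_right _ _⟩)
    ((hR.image fun r => gr r.2.2).union (hC.image fun c => gr c.2.2))
  obtain ⟨l, h1, h2⟩ := lam_aux mono dir gr R hR hgr C hC (N + 1)
  exact ⟨l, fun r hr => h1 r hr (Nat.lt_succ_of_le (hN _ (Or.inl ⟨r, hr, rfl⟩))),
    fun c hc => h2 c hc (Nat.lt_succ_of_le (hN _ (Or.inr ⟨c, hc, rfl⟩)))⟩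

/-- The entries of the differentials of a finite complex: finitely many are not zero. -/
theorem rel_finite {k : Type u} [Ring k] {Γ : Type u} [Group Γ] {B : Type u} [MulAction Γ B]
    {P : Pre Γ B} (E : CochainComplex (Loc k P) ℤ) (hE : FinC E) {β : Type u}
    (π : ∀ n, (E.X n).ι → β) :
    {r : β × Γ × β | ∃ (n n' : ℤ) (x : (E.X n).ι) (y : (E.X n').ι),
      ent (Loc.lin (E.d n n')) x y r.2.1 ≠ 0 ∧ r.1 = π n x ∧ r.2.2 = π n' y}.Finite := by
  classical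
  obtain ⟨a, b, hab⟩ := hE.bdd
  have hfin := hE.fin
  -- all quadruples
  have h0 : ∀ n n' : ℤ, {r : β × Γ × β | ∃ (x : (E.X n).ι) (y : (E.X n').ι),
      ent (Loc.lin (E.d n n')) x y r.2.1 ≠ 0 ∧ r.1 = π n x ∧ r.2.2 = π n' y}.Finite := by
    intro n n'
    have := hfin n
    have := hfin n'
    have h1 : {r : β × Γ × β | ∃ (x : (E.X n).ι) (y : (E.X n').ι),
        ent (Loc.lin (E.d n n')) x y r.2.1 ≠ 0 ∧ r.1 = π n x ∧ r.2.2 = π n' y} ⊆
        ⋃ x : (E.X n).ι, ⋃ y : (E.X n').ι, (fun g : Γ => (π n x, g, π n' y)) ''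
          ((Loc.lin (E.d n n') (Finsupp.single x 1) y).coeff.support : Set Γ) := by
      rintro ⟨r1, g, r2⟩ ⟨x, y, hg, rfl, rfl⟩
      exact Set.mem_iUnion.2 ⟨x, Set.mem_iUnion.2 ⟨y, g, Finsupp.mem_support_iff.2 hg, rfl⟩⟩
    refine Set.Finite.subset ?_ h1
    exact Set.finite_iUnion fun x => Set.finite_iUnion fun y =>
      (Finset.finite_toSet _).image _
  have h2 : {r : β × Γ × β | ∃ (n n' : ℤ) (x : (E.X n).ι) (y : (E.X n').ι),
      ent (Loc.lin (E.d n n')) x y r.2.1 ≠ 0 ∧ r.1 = π n x ∧ r.2.2 = π n' y} ⊆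
      ⋃ n ∈ Set.Icc a b, ⋃ n' ∈ Set.Icc a b, {r : β × Γ × β | ∃ (x : (E.X n).ι) (y : (E.X n').ι),
        ent (Loc.lin (E.d n n')) x y r.2.1 ≠ 0 ∧ r.1 = π n x ∧ r.2.2 = π n' y} := by
    rintro r ⟨n, n', x, y, hg, e1, e2⟩
    have hn : n ∈ Set.Icc a b := by
      by_contra hc
      rw [Set.mem_Icc, not_and_or, not_le, not_le] at hc
      exact (hab n hc).false x
    have hn' : n' ∈ Set.Icc a b := by
      by_contra hc
      rw [Set.mem_Icc, not_and_or, not_le, not_le] at hc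
      exact (hab n' hc).false y
    exact Set.mem_biUnion hn (Set.mem_biUnion hn' ⟨x, y, hg, e1, e2⟩)
  refine Set.Finite.subset ?_ h2
  exact (Set.finite_Icc a b).biUnion fun n _ => (Set.finite_Icc a b).biUnion fun n' _ => h0 n n'

end H25

/-- LAM: one can choose new locations in a direction `i` subject to finitely many conditions. -/
theorem lam {Γ : Type u} [Group Γ] (T : Sys Γ) : T.LAM := by
  intro S J k _ Λ i C hC
  obtain ⟨l, h1, h2⟩ := H25.lam_aux' (T.mono i) (T.dir i) Λ.gr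
    {r : Λ.β × Γ × Λ.β | ∃ (n n' : ℤ) (x : (Λ.E.X n).ι) (y : (Λ.E.X n').ι),
      ent (Loc.lin (Λ.E.d n n')) x y r.2.1 ≠ 0 ∧ r.1 = Λ.π n x ∧ r.2.2 = Λ.π n' y}
    (H25.rel_finite Λ.E Λ.fin Λ.π) (by
      rintro ⟨r1, g, r2⟩ ⟨n, n', x, y, hg, e1, e2⟩
      simp only at hg e1 e2 ⊢
      subst e1
      subst e2
      rcases Λ.dgr n n' x y g hg with h | ⟨h, h', _⟩
      · exact Or.inl h
      · exact Or.inr ⟨h, h'⟩) C hC
  exact ⟨l, fun n n' x y g hg => h1 (Λ.π n x, g, Λ.π n' y) ⟨n, n', x, y, hg, rfl, rfl⟩, h2⟩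

end Pool.Agent.NegK.NT
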